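import Mathlib
import Pool.Agent.Helper41.LF.All

/-!
# Lang's inequality on average over all algebraic numbers of given degree, full range

Fix a degree `d ≥ 2`, an interval `[-R, R]` and `ε > 0`. Among the real algebraic numbers of degree
`d` and height at most `H` in `[-R, R]`, the proportion of those that violate
`|ξ - p/q| > c / (q² (log q)^(1+ε))` for some `p` and some `q ≥ Q` with
`q² (log q)^(1+ε) ≤ c δ H^(d+1)` is at most `C (c / (log Q)^ε + δ^θ)`.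
-/

set_option autoImplicit false

namespace Pool.Agent.Results.MP_c307ca_nt.AverageFullRange

/-- Let `d ≥ 2`, `R ≥ 1`, `ε > 0`. There are `C` and `θ > 0` such that for all `c, δ > 0` and all
`H ≥ 22`, `Q ≥ 2` the following holds. Let `S` be the set of real numbers `ξ` with `|ξ| ≤ R`,
algebraic of degree exactly `d`, that are roots of a nonzero integer polynomial of degree at most `d`
with all coefficients in `[-H, H]`. Then `S` is finite and nonempty, and at most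
`C (c / (log Q)^ε + δ^θ) #S` elements `ξ` of `S` admit a fraction `p/q` with `q ≥ Q`,
`q² (log q)^(1+ε) ≤ c δ H^(d+1)` and `|ξ - p/q| ≤ c / (q² (log q)^(1+ε))`. -/
theorem result (d : ℕ) (hd : 2 ≤ d) (R : ℝ) (hR : 1 ≤ R) (ε : ℝ) (hε : 0 < ε) :
    ∃ C θ : ℝ, 0 < θ ∧ ∀ c δ : ℝ, 0 < c → 0 < δ → ∀ H Q : ℕ, 22 ≤ H → 2 ≤ Q → ∀ S : Set ℝ,
      S = {ξ : ℝ | |ξ| ≤ R ∧ (minpoly ℚ ξ).natDegree = d ∧
        ∃ P : Polynomial ℤ, P ≠ 0 ∧ P.natDegree ≤ d ∧ (∀ i, |P.coeff i| ≤ (H : ℤ)) ∧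
          Polynomial.aeval ξ P = 0} →
      S.Finite ∧ S.Nonempty ∧
      (Set.ncard {ξ ∈ S | ∃ (p : ℤ) (q : ℕ), Q ≤ q ∧
          (q : ℝ) ^ 2 * (Real.log (q : ℝ)) ^ (1 + ε) ≤ c * δ * (H : ℝ) ^ (d + 1) ∧
          |ξ - (p : ℝ) / (q : ℝ)| ≤ c / ((q : ℝ) ^ 2 * (Real.log (q : ℝ)) ^ (1 + ε))} : ℝ)
        ≤ C * (c / (Real.log (Q : ℝ)) ^ ε + δ ^ θ) * (Set.ncard S : ℝ) := by
  obtain ⟨C, θ, _, hθ, h⟩ := Pool.Agent.Helper41.LF.average_full_range
    Pool.Agent.Helper41.LF.BADN Pool.Agent.Helper41.LF.thm_CNT Pool.Agent.Helper41.LF.pert_own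
    hd hR hε
  refine ⟨C, θ, hθ, ?_⟩
  intro c δ hc hδ H Q hH hQ
  rintro S rfl
  refine ⟨Pool.Agent.Helper92.Avg.algNums_finite d H R, ?_, h c δ hc hδ H Q hH hQ⟩
  have h1 := Pool.Agent.Helper92.Avg.card_algNums hd hH hR
  have h2 : (0 : ℝ) < ((Pool.Agent.Helper92.Avg.AlgNums d H R).ncard : ℝ) := by
    refine lt_of_lt_of_le ?_ h1
    have : (0 : ℝ) < H := by
      have : 0 < H := by omega
      exact_mod_cast this
    positivity
  have h3 : 0 < (Pool.Agent.Helper92.Avg.AlgNums d H R).ncard := by exact_mod_cast h2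
  exact Set.nonempty_of_ncard_ne_zero h3.ne'

end Pool.Agent.Results.MP_c307ca_nt.AverageFullRange
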