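import Mathlib
import Pool.Agent.Helper73.SM.Asm
import Pool.Agent.Helper70.SM.RED
import Pool.Agent.Helper69.SM.CG
import Pool.Agent.Helper25.SM.BAS
import Pool.Agent.Helper3.SM.PRM
import Pool.Agent.Helper32.SM.LAT
import Pool.Agent.Helper1.SM.SUM
import Pool.Agent.Helper32.SM.CNT
import Pool.Agent.Helper48.SM.SQ
import Pool.Agent.Helper27.SM.EB
import Pool.Agent.Helper45.SM.DET
import Pool.Agent.Helper98.SM.CLS
import Pool.Agent.Helper6.SM.KB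
import Pool.Agent.Helper6.SM.SI
import Pool.Agent.Helper49.SM.SQS
import Pool.Agent.Helper28.SM.INT
import Pool.Agent.Helper86.SM.RCI
import Pool.Agent.Helper6.SM.SAA
import Pool.Agent.Helper57.SM.BIN
import Pool.Agent.Helper45.SM.REM
import Pool.Agent.Helper60.SM.NV
import Pool.Agent.Helper59.SM.EXL
import Pool.Agent.Helper17.SM.IRR
import Pool.Agent.Helper17.SM.PD
import Pool.Agent.Helper57.SM.A1
import Pool.Agent.Helper57.SM.A2
import Pool.Agent.Helper14.SM.B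

/-!
# Lang's inequality for almost all images of an algebraic number under integer matrices: sharp form

Let `ξ` be a real algebraic irrational number.  For every `A`, all but a proportion
`C (c / (log Q)^ε + H^(-1/20))` of the integer matrices `g` with entries in `[-H, H]`, `H ≥ H₀(ξ, A)`,
are such that `η = (g₀₀ ξ + g₀₁) / (g₁₀ ξ + g₁₁)` satisfies Lang's inequality with constant `c` for all
`Q ≤ q ≤ H ^ A`; the constant `C` depends on `ε` only.  For `ξ = (1 + 1/N)^(1/k)` one may take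
`A = c₁ log N` and `H₀ = N ^ C₀`.
-/

set_option autoImplicit false

namespace Pool.Agent.Results.MP_c307ca_nt.MoebiusSharp

open Pool.Agent

open Classical in
/-- From the box of pairs of rows to matrices. -/
theorem ncard_le (ε c Q R ξ : ℝ) (H : ℕ) :
    (({g : Matrix (Fin 2) (Fin 2) ℤ | (∀ i j, |g i j| ≤ (H : ℤ)) ∧
          ∃ (p : ℤ) (q : ℕ), Q ≤ (q : ℝ) ∧ (q : ℝ) ≤ R ∧
            |((g 0 0 : ℝ) * ξ + (g 0 1 : ℝ)) / ((g 1 0 : ℝ) * ξ + (g 1 1 : ℝ)) - (p : ℝ) / (q : ℝ)|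
              ≤ c / ((q : ℝ) ^ 2 * (Real.log (q : ℝ)) ^ (1 + ε))}).ncard : ℝ)
      ≤ (((Helper73.SM.box H).filter (Helper73.SM.bad ε c Q R ξ)).card : ℝ) := by
  have hle : ({g : Matrix (Fin 2) (Fin 2) ℤ | (∀ i j, |g i j| ≤ (H : ℤ)) ∧
          ∃ (p : ℤ) (q : ℕ), Q ≤ (q : ℝ) ∧ (q : ℝ) ≤ R ∧
            |((g 0 0 : ℝ) * ξ + (g 0 1 : ℝ)) / ((g 1 0 : ℝ) * ξ + (g 1 1 : ℝ)) - (p : ℝ) / (q : ℝ)|
              ≤ c / ((q : ℝ) ^ 2 * (Real.log (q : ℝ)) ^ (1 + ε))}).ncard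
      ≤ ((Helper73.SM.box H).filter (Helper73.SM.bad ε c Q R ξ)).card := by
    rw [← Set.ncard_coe_finset]
    apply Set.ncard_le_ncard_of_injOn
      (fun g : Matrix (Fin 2) (Fin 2) ℤ => (((g 0 0, g 0 1), (g 1 0, g 1 1)) : Helper73.SM.Mat))
    · rintro g ⟨hg, p, q, h2, h3, h4⟩
      rw [Finset.mem_coe]
      refine Finset.mem_filter.2 ⟨?_, p, q, h2, h3, h4⟩
      simp only [Helper73.SM.box, Finset.mem_product, Finset.mem_Icc]
      exact ⟨⟨abs_le.1 (hg 0 0), abs_le.1 (hg 0 1)⟩, ⟨abs_le.1 (hg 1 0), abs_le.1 (hg 1 1)⟩⟩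
    · intro g _ g' _ h
      simp only [Prod.mk.injEq] at h
      ext i j
      fin_cases i <;> fin_cases j
      · exact h.1.1
      · exact h.1.2
      · exact h.2.1
      · exact h.2.2
  exact_mod_cast hle

/-- Let `ε > 0`.  There is `C`, depending on `ε` only, such that for every real algebraic
irrational number `ξ` and every real `A`, for all integers `H ≥ H₀(ξ, A)` and all real `c > 0`,
`Q ≥ 2`: at most `C (c / (log Q)^ε + H^(-1/20)) (2 H + 1)^4` of the `(2 H + 1)^4` integer `2 × 2`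
matrices `g` with entries in `[-H, H]` are such that `η = (g₀₀ ξ + g₀₁) / (g₁₀ ξ + g₁₁)` admits
`p` and `Q ≤ q ≤ H ^ A` with `|η - p / q| ≤ c / (q ^ 2 (log q) ^ (1 + ε))`.  Moreover, for every
`k ≥ 2`, for the numbers `ξ = (1 + 1/N)^(1/k)` with `N ≥ N₀(k)` this holds with `A = c₁ log N` for all
`H ≥ N ^ C₀`, with `c₁ > 0` and `C₀` depending on `k` and `ε` only. -/
theorem result (ε : ℝ) (hε : 0 < ε) :
    ∃ C : ℝ,
      (∀ ξ : ℝ, IsAlgebraic ℚ ξ → Irrational ξ → ∀ A : ℝ, ∃ H₀ : ℕ, ∀ H : ℕ, H₀ ≤ H →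
        ∀ c Q : ℝ, 0 < c → 2 ≤ Q →
        (({g : Matrix (Fin 2) (Fin 2) ℤ | (∀ i j, |g i j| ≤ (H : ℤ)) ∧
          ∃ (p : ℤ) (q : ℕ), Q ≤ (q : ℝ) ∧ (q : ℝ) ≤ (H : ℝ) ^ A ∧
            |((g 0 0 : ℝ) * ξ + (g 0 1 : ℝ)) / ((g 1 0 : ℝ) * ξ + (g 1 1 : ℝ)) - (p : ℝ) / (q : ℝ)|
              ≤ c / ((q : ℝ) ^ 2 * (Real.log (q : ℝ)) ^ (1 + ε))}).ncard : ℝ)
          ≤ C * (c / Real.log Q ^ ε + (H : ℝ) ^ (-(1 / 20) : ℝ)) * (2 * (H : ℝ) + 1) ^ 4) ∧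
      (∀ k : ℕ, 2 ≤ k → ∃ (c₁ C₀ : ℝ) (N₀ : ℕ), 0 < c₁ ∧ ∀ N H : ℕ, N₀ ≤ N → (N : ℝ) ^ C₀ ≤ H →
        ∀ c Q : ℝ, 0 < c → 2 ≤ Q →
        (({g : Matrix (Fin 2) (Fin 2) ℤ | (∀ i j, |g i j| ≤ (H : ℤ)) ∧
          ∃ (p : ℤ) (q : ℕ), Q ≤ (q : ℝ) ∧ (q : ℝ) ≤ (H : ℝ) ^ (c₁ * Real.log N) ∧
            |((g 0 0 : ℝ) * (1 + 1 / (N : ℝ)) ^ (1 / (k : ℝ)) + (g 0 1 : ℝ)) /
              ((g 1 0 : ℝ) * (1 + 1 / (N : ℝ)) ^ (1 / (k : ℝ)) + (g 1 1 : ℝ)) - (p : ℝ) / (q : ℝ)|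
              ≤ c / ((q : ℝ) ^ 2 * (Real.log (q : ℝ)) ^ (1 + ε))}).ncard : ℝ)
          ≤ C * (c / Real.log Q ^ ε + (H : ℝ) ^ (-(1 / 20) : ℝ)) * (2 * (H : ℝ) + 1) ^ 4) := by
  classical
  have hRED := Helper70.SM.goalRED
  have hCG := Helper69.SM.goalCG
  have hBAS := Helper25.SM.goalBAS hRED hCG
  have hPRM := Helper3.SM.goalPRM hRED
  have hLAT := Helper32.SM.goalLAT hBAS
  have hSUM := Helper1.SM.goalSUM
  have hCNT := Helper32.SM.goalCNT hLAT hPRM hSUM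
  have hG := Helper73.SM.goalG hCNT Helper48.SM.goalSQ Helper27.SM.goalEB Helper45.SM.goalDET
    Helper98.SM.goalCLS Helper6.SM.goalKB Helper6.SM.goalSI Helper49.SM.goalSQS
  have hRCI := Helper86.SM.goalRCI Helper28.SM.goalINT
  have hBIN := Helper57.SM.goalBIN
  have hSAA := Helper6.SM.goalSAA
  have hREM := Helper45.SM.goalREM hSAA hBIN
  have hNV := Helper60.SM.goalNV hSAA hBIN
  have hPD := Helper17.SM.goalPD hRCI hREM hNV Helper59.SM.goalEXL hBIN Helper17.SM.goalIRR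
  have hA := Helper57.SM.goalA2 (Helper57.SM.goalA1 hG)
  have hB := Helper14.SM.goalB hG hPD
  obtain ⟨C₁, hC₁, hA'⟩ := hA ε hε
  obtain ⟨C₂, hC₂, hB'⟩ := hB ε hε
  have hmono : ∀ (C c Q : ℝ) (H : ℕ), 0 < C → C ≤ C₁ + C₂ → 0 < c → 2 ≤ Q →
      C * (c / Real.log Q ^ ε + (H : ℝ) ^ (-(1 / 20) : ℝ)) * (2 * (H : ℝ) + 1) ^ 4
        ≤ (C₁ + C₂) * (c / Real.log Q ^ ε + (H : ℝ) ^ (-(1 / 20) : ℝ)) * (2 * (H : ℝ) + 1) ^ 4 := by
    intro C c Q H hC hle hc hQ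
    have h1 : 0 < Real.log Q := Real.log_pos (by linarith)
    have h2 : 0 ≤ c / Real.log Q ^ ε + (H : ℝ) ^ (-(1 / 20) : ℝ) := by positivity
    apply mul_le_mul_of_nonneg_right _ (by positivity)
    exact mul_le_mul_of_nonneg_right hle h2
  refine ⟨C₁ + C₂, ?_, ?_⟩
  · intro ξ hξ hirr A
    obtain ⟨H₀, hH₀⟩ := hA' ξ hξ hirr A
    refine ⟨H₀, fun H hH c Q hc hQ => ?_⟩
    refine (ncard_le ε c Q ((H : ℝ) ^ A) ξ H).trans ?_
    exact (hH₀ H hH c Q hc hQ).trans (hmono C₁ c Q H hC₁ (by linarith) hc hQ)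
  · intro k hk
    obtain ⟨C₀, c₁, N₀, hc₁, h⟩ := hB' k hk
    refine ⟨c₁, C₀, max N₀ 1, hc₁, ?_⟩
    intro N H hN hH c Q hc hQ
    have hN1 : 1 ≤ N := (le_max_right _ _).trans hN
    have hNpos : (0 : ℝ) < N := by exact_mod_cast hN1
    have hHpos : (0 : ℝ) < H := lt_of_lt_of_le (Real.rpow_pos_of_pos hNpos _) hH
    have hR : (H : ℝ) ^ (c₁ * Real.log N) = Real.exp (c₁ * Real.log H * Real.log N) := by
      rw [Real.rpow_def_of_pos hHpos]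
      congr 1
      ring
    rw [hR]
    refine (ncard_le ε c Q _ _ H).trans ?_
    exact (h N H ((le_max_left _ _).trans hN) hH c Q hc hQ).trans
      (hmono C₂ c Q H hC₂ (by linarith) hc hQ)

end Pool.Agent.Results.MP_c307ca_nt.MoebiusSharp
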