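import Pool.Agent.Helper92.UM.Asm

/-!
# Lang's inequality for almost all linear combinations, multiples and division points

Let `x₁, …, x_m` be real algebraic numbers such that `1, x₁, …, x_m` are linearly independent over
`ℚ`.  Almost all of the `K = M₁ ⋯ M_m d` numbers `β + (s (a₁ x₁ + ⋯ + a_m x_m) + b) / d`,
`1 ≤ a_i ≤ M_i`, `0 ≤ b < d`, satisfy Lang's inequality `|· - p / q| > c / (q ^ 2 (log q) ^ (1 + ε))`
for all `Q ≤ q ≤ K ^ A`: the exceptions are at most `C c K / (log Q) ^ ε'`, uniformly in the `M_i`,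
`d`, `s ≤ K ^ α`, `Q ≥ 2` and the real number `β`.  Here `A + α < 1`, or `m = 1`, `β = 0` and `A` is
arbitrary.
-/

set_option autoImplicit false

namespace Pool.Agent.Results.MP_c307ca_nt.MultiplesAndDivision

/-- Let `0 ≤ ε' < ε`.  There is `C`, depending on `ε` and `ε'` only, such that for every `m ≥ 1`, all
real algebraic numbers `x i`, `i < m`, which are together with `1` linearly independent over `ℚ`, every
`c > 0` and all real `A` and `α < 1` there is `N0` such that for all natural `M i`, `i < m`, `d` and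
`s` and all real `β` with `A + α < 1` or (`m = 1` and `β = 0`), `K = d ∏ M i ≥ N0` and
`1 ≤ s ≤ K ^ α`, and all real `Q ≥ 2`: at most `C c K / (log Q) ^ ε'` of the `K` pairs `(a, b)`,
`1 ≤ a i ≤ M i`, `0 ≤ b < d`, are such that `β + (s ∑ a i x i + b) / d` admits integers `p` and `q`
with `Q ≤ q ≤ K ^ A` and
`|β + (s ∑ a i x i + b) / d - p / q| ≤ c / (q ^ 2 (log q) ^ (1 + ε))`. -/
theorem result (ε ε' : ℝ) (hε : 0 < ε) (hε'0 : 0 ≤ ε') (hε' : ε' < ε) :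
    ∃ C : ℝ, ∀ (m : ℕ) (x : Fin m → ℝ), 1 ≤ m → (∀ i, IsAlgebraic ℚ (x i)) →
      (∀ (u : ℤ) (v : Fin m → ℤ), (u : ℝ) + ∑ i, (v i : ℝ) * x i = 0 → u = 0 ∧ v = 0) →
      ∀ c A α : ℝ, 0 < c → α < 1 →
      ∃ N0 : ℕ, ∀ (M : Fin m → ℕ) (d s : ℕ) (β : ℝ), (m = 1 ∧ β = 0) ∨ A + α < 1 →
        N0 ≤ (∏ i, M i) * d → 1 ≤ s → (s : ℝ) ≤ ((∏ i, (M i : ℝ)) * d) ^ α →
        ∀ Q : ℝ, 2 ≤ Q →
        ({y : (Fin m → ℕ) × ℕ | (∀ i, 1 ≤ y.1 i ∧ y.1 i ≤ M i) ∧ y.2 < d ∧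
            ∃ (p : ℤ) (q : ℕ), Q ≤ q ∧ (q : ℝ) ≤ ((∏ i, (M i : ℝ)) * d) ^ A ∧
            |β + ((s : ℝ) * ∑ i, (y.1 i : ℝ) * x i + y.2) / d - (p : ℝ) / (q : ℝ)|
              ≤ c / ((q : ℝ) ^ 2 * Real.log (q : ℝ) ^ (1 + ε))}.ncard : ℝ)
          ≤ C * c * ((∏ i, (M i : ℝ)) * d) / Real.log Q ^ ε' :=
  Pool.Agent.Helper92.UM.final ε ε' hε hε'0 hε'

end Pool.Agent.Results.MP_c307ca_nt.MultiplesAndDivision
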