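import Mathlib
import Pool.Agent.Helper73.SM.AsmK
import Pool.Agent.Helper28.SM.INT
import Pool.Agent.Helper57.SM.BIN
import Pool.Agent.Helper6.SM.SAA
import Pool.Agent.Helper45.SM.REM
import Pool.Agent.Helper80.SM.UCR
import Pool.Agent.Helper31.SM.KCZ
import Pool.Agent.Helper87.SM.KDT
import Pool.Agent.Helper90.SM.KSZ
import Pool.Agent.Helper48.SM.KPR
import Pool.Agent.Helper79.SM.KVL
import Pool.Agent.Helper81.SM.KVD
import Pool.Agent.Helper32.SM.KCP
import Pool.Agent.Helper50.SM.KRT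
import Pool.Agent.Helper17.SM.KPK
import Pool.Agent.Helper77.SM.KSM
import Pool.Agent.Helper85.SM.KLL
import Pool.Agent.Helper97.SM.KKY
import Pool.Agent.Helper60.SM.KLD
import Pool.Agent.Helper54.SM.KPN
import Pool.Agent.Helper12.SM.KAS
import Pool.Agent.Helper14.SM.KTL
import Pool.Agent.Helper14.SM.KPP

/-!
# Rational approximations to the numbers `(1 + 1/N)^(m/k)` in a long range

Let `k ≥ 3` and let `m/k` be a reduced fraction in `(0, 1)`.  For all `T ≥ 3` and all large `X`, all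
but `C X exp (-c log T / log log T)` of the integers `N` in `(X, 2X]` are such that the algebraic
number `ξ = (1 + 1/N)^(m/k)` satisfies `|ξ - p/q| ≥ 1 / (T N q²)` for all integers `p` and all
`1 ≤ q ≤ exp (κ (log N)²)`.
-/

set_option autoImplicit false

namespace Pool.Agent.Results.MP_c307ca_nt.Radicals

open Pool.Agent

/-- Let `k ≥ 3` and `1 ≤ m < k`, `gcd(m, k) = 1`.  There are `κ, C, c > 0` and `X₀` such that for
all integers `X ≥ X₀` and all real `T ≥ 3`, at most `C X exp (-c log T / log log T)` of the integers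
`X < N ≤ 2X` are such that `|(1 + 1/N)^(m/k) - p/q| < 1 / (T N q²)` for some integers `p` and
`1 ≤ q ≤ exp (κ (log N)²)`. -/
theorem result (k m : ℕ) (hk : 3 ≤ k) (hm : 1 ≤ m) (hmk : m < k) (hcop : Nat.Coprime m k) :
    ∃ (κ C c : ℝ) (X₀ : ℕ), 0 < κ ∧ 0 < C ∧ 0 < c ∧ ∀ X : ℕ, X₀ ≤ X → ∀ T : ℝ, 3 ≤ T →
      (({N : ℕ | X < N ∧ N ≤ 2 * X ∧ ∃ (p : ℤ) (q : ℕ), 1 ≤ q ∧
        (q : ℝ) ≤ Real.exp (κ * Real.log N ^ 2) ∧
        |(1 + 1 / (N : ℝ)) ^ ((m : ℝ) / (k : ℝ)) - (p : ℝ) / (q : ℝ)|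
          < 1 / (T * N * (q : ℝ) ^ 2)}).ncard : ℝ)
        ≤ C * X * Real.exp (-(c * (Real.log T / Real.log (Real.log T)))) := by
  have hINT := Helper28.SM.goalINT
  have hBIN := Helper57.SM.goalBIN
  have hSAA := Helper6.SM.goalSAA
  have hREM := Helper45.SM.goalREM hSAA hBIN
  have hUCR := Helper80.SM.goalUCR
  have hKCZ := Helper31.SM.goalKCZ hINT
  have hKDT := Helper87.SM.goalKDT hSAA hBIN hKCZ
  have hKSZ := Helper90.SM.goalKSZ hKCZ hREM hBIN
  have hKPR := Helper48.SM.goalKPR hKSZ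
  have hKVL := Helper79.SM.goalKVL hKSZ hKDT
  have hKVD := Helper81.SM.goalKVD hKCZ hKDT
  have hKCP := Helper32.SM.goalKCP hKCZ
  have hKRT := Helper50.SM.goalKRT hKCZ
  have hKPK := Helper17.SM.goalKPK hKCZ hKDT
  have hKSM := Helper77.SM.goalKSM hKCZ hKDT
  have hKLL := Helper85.SM.goalKLL
  have hKKY := Helper97.SM.goalKKY hKDT hKVD hKCP hKPK hKSM hKLL
  have hKLD := Helper60.SM.goalKLD hUCR
  have hKPN := Helper54.SM.goalKPN
  have hKAS := Helper12.SM.goalKAS hKPN hKLL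
  have hKTL := Helper14.SM.goalKTL
  have hKPP := Helper14.SM.goalKPP
  exact Helper73.SM.goalKR hKDT hKPR hKVL hKKY hKRT hKLD hKAS hKTL hKPP k m hk hm hmk hcop

end Pool.Agent.Results.MP_c307ca_nt.Radicals
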